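import Pool.Agent.N398.HT.Chk

/-! # Discs in a drawing given by tables -/

set_option autoImplicit false

namespace Pool.Agent.N398.HT

open Equiv TH482.HT

theorem discB_spec {t : Tab} {LV LE LF : List ℕ} (hd : discB t LV LE LF = true) :
    LV.Nodup ∧ LE.Nodup ∧ LF.Nodup ∧ (∀ v ∈ LV, v < t.Vn) ∧ (∀ e ∈ LE, e < t.En) ∧
    (∀ f ∈ LF, f < t.Fn) ∧ (∀ e ∈ LE, get t.VLAB (2 * e) ∈ LV ∧ get t.VLAB (2 * e + 1) ∈ LV) ∧
    (∀ c < 2 * t.En, get t.FACE c ∈ LF → c / 2 ∈ LE) ∧
    LV.length + LF.length = LE.length + 1 ∧ LF.length < t.Fn ∧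
    (∃ v l, LV = v :: l ∧ connB t LE [v] l = true) := by
  unfold discB at hd
  obtain ⟨a1, hd⟩ := Tab.bnd_spec hd
  obtain ⟨a2, hd⟩ := Tab.bnd_spec hd
  obtain ⟨a3, hd⟩ := Tab.bnd_spec hd
  obtain ⟨a4, hd⟩ := Tab.bnd_spec hd
  obtain ⟨a5, hd⟩ := Tab.bnd_spec hd
  obtain ⟨a6, hd⟩ := Tab.bnd_spec hd
  obtain ⟨a7, hd⟩ := Tab.bnd_spec hd
  obtain ⟨a8, hd⟩ := Tab.bnd_spec hd
  obtain ⟨a9, hd⟩ := Tab.bnd_spec hd
  obtain ⟨a10, hd⟩ := Tab.bnd_spec hd
  refine ⟨nodupB_spec a1, nodupB_spec a2, nodupB_spec a3, ?_, ?_, ?_, ?_, ?_,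
    GoodTab.beq_eq a9, GoodTab.blt_eq a10, ?_⟩
  · intro v hv; exact GoodTab.blt_eq (List.all_eq_true.1 a4 v hv)
  · intro v hv; exact GoodTab.blt_eq (List.all_eq_true.1 a5 v hv)
  · intro v hv; exact GoodTab.blt_eq (List.all_eq_true.1 a6 v hv)
  · intro e he
    obtain ⟨b1, b2⟩ := Tab.bnd_spec (List.all_eq_true.1 a7 e he)
    exact ⟨memB_iff.1 b1, memB_iff.1 b2⟩
  · intro c hc hm
    cases LF with
    | nil => exact absurd hm (by simp)
    | cons f LF =>
      have he : (f :: LF).isEmpty = false := rfl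
      rw [he, cond_false] at a8
      have h1 := allB_spec a8 c hc
      rw [memB_iff.2 hm, cond_true] at h1
      exact memB_iff.1 h1
  · cases LV with
    | nil => exact absurd hd (by simp)
    | cons v l => exact ⟨v, l, rfl, hd⟩

section

variable {N M k : ℕ} [NeZero N] {w : Fin (N + 1) → Fin k} {t : Tab} (h : GoodTab N M k w t)

theorem aux_rot (LV : List ℕ) (d : Fin t.En × Bool) (hd : get t.VLAB (t.enc d) ∈ LV) :
    get t.VLAB (t.enc (rotP h d)) ∈ LV := by
  rw [enc_rotP, (h.s6 (t.enc_lt d)).1]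
  exact hd

theorem aux_rev (LE : List ℕ) (d : Fin t.En × Bool) (hd : t.enc d / 2 ∈ LE) :
    t.enc (flip d) / 2 ∈ LE := by
  have h3 : t.enc (flip d) / 2 = t.enc d / 2 := by
    rw [← flip_exact]
    refine ⟨-1, ?_⟩
    rw [zpow_neg_one]
    exact flip.symm_apply_apply d
  rw [h3]
  exact hd

theorem aux_face (LF : List ℕ) (d : Fin t.En × Bool) (hd : get t.FACE (t.enc d) ∈ LF) :
    get t.FACE (t.enc (rotP h (flip d))) ∈ LF := by
  rw [enc_rotP, t.enc_flip, (h.s6 (t.enc_lt d)).2]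
  exact hd

theorem aux_es (LV LE : List ℕ)
    (h1 : ∀ e ∈ LE, get t.VLAB (2 * e) ∈ LV ∧ get t.VLAB (2 * e + 1) ∈ LV)
    (d : Fin t.En × Bool) (hd : t.enc d / 2 ∈ LE) : get t.VLAB (t.enc d) ∈ LV := by
  obtain ⟨e, b⟩ := d
  have he : t.enc (e, b) / 2 = e.val := by
    cases b <;> simp only [Tab.enc, cond_true, cond_false] <;> omega
  rw [he] at hd
  cases b
  · exact (h1 _ hd).1
  · exact (h1 _ hd).2

/-- the subcomplex of the drawing with the given lists of vertices, edges and faces -/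
def subOf (LV LE LF : List ℕ)
    (h1 : ∀ e ∈ LE, get t.VLAB (2 * e) ∈ LV ∧ get t.VLAB (2 * e + 1) ∈ LV)
    (h2 : ∀ c < 2 * t.En, get t.FACE c ∈ LF → c / 2 ∈ LE) :
    Subcomplex (tabDrawing h).toSurfaceMap where
  vs := {d : Fin t.En × Bool | get t.VLAB (t.enc d) ∈ LV}
  es := {d : Fin t.En × Bool | t.enc d / 2 ∈ LE}
  fs := {d : Fin t.En × Bool | get t.FACE (t.enc d) ∈ LF}
  vs_rot := fun d hd => aux_rot h LV d hd
  es_rev := fun d hd => aux_rev LE d hd
  fs_face := fun d hd => aux_face h LF d hd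
  es_vs := fun d hd => aux_es LV LE h1 d hd
  fs_es := fun d hd => h2 _ (t.enc_lt d) hd

theorem subOf_isDisc (IDX : ℕ) (hV : allB (2 * t.En) (chkV t) = true)
    (hR : allB (2 * t.En) (chkR t) = true) (hF : allB (2 * t.En) (chkF t IDX) = true)
    (LV LE LF : List ℕ) (hd : discB t LV LE LF = true)
    (h1 : ∀ e ∈ LE, get t.VLAB (2 * e) ∈ LV ∧ get t.VLAB (2 * e + 1) ∈ LV)
    (h2 : ∀ c < 2 * t.En, get t.FACE c ∈ LF → c / 2 ∈ LE) :
    (subOf h LV LE LF h1 h2).IsDisc := by
  obtain ⟨n1, n2, n3, l1, l2, l3, _, _, ch, pf, v0, l, hl, hc⟩ := discB_spec hd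
  have hv7 : ∀ v < t.Vn, get t.VREP v < 2 * t.En ∧ get t.VLAB (get t.VREP v) = v := by
    intro v hv
    obtain ⟨b1, b2⟩ := Tab.bnd_spec (allB_spec h.c7 v hv)
    exact ⟨GoodTab.blt_eq b1, GoodTab.beq_eq b2⟩
  have hv8 : ∀ v < t.Fn, get t.FREP v < 2 * t.En ∧ get t.FACE (get t.FREP v) = v := by
    intro v hv
    obtain ⟨b1, b2⟩ := Tab.bnd_spec (allB_spec h.c8 v hv)
    exact ⟨GoodTab.blt_eq b1, GoodTab.beq_eq b2⟩
  have hex := rot_exact h hV hR (fun v hv => (hv7 v hv).1)
  refine ⟨⟨?_, ?_⟩, ?_, ?_⟩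
  · -- not empty
    have hm : v0 ∈ LV := by rw [hl]; exact List.mem_cons_self
    obtain ⟨d, hd0⟩ := enc_dec' h (hv7 v0 (l1 v0 hm)).1
    refine ⟨d, ?_⟩
    change get t.VLAB (t.enc d) ∈ LV
    rw [hd0, (hv7 v0 (l1 v0 hm)).2]
    exact hm
  · -- connected
    intro T hT hne hrot hrev
    have hroti : ∀ d : Fin t.En × Bool, d ∈ T → (rotP h)⁻¹ d ∈ T :=
      perm_closed (rotP h) T hrot
    have hcyc : ∀ d d' : Fin t.En × Bool, get t.VLAB (t.enc d) = get t.VLAB (t.enc d') →
        d ∈ T → d' ∈ T := by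
      intro d d' he hdT
      obtain ⟨n, hn⟩ := (hex d d').2 he
      rw [← hn]
      have key : ∀ n : ℤ, ((rotP h) ^ n) d ∈ T := by
        intro n
        induction n using Int.induction_on with
        | zero => exact hdT
        | succ n ih =>
          rw [add_comm, zpow_add, zpow_one, Perm.mul_apply]
          exact hrot _ ih
        | pred n ih =>
          rw [sub_eq_neg_add, zpow_add, zpow_neg_one, Perm.mul_apply]
          exact hroti _ ih
      exact key n
    -- all listed vertices are in `T` or none of them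
    let P : ℕ → Prop := fun v => ∃ d : Fin t.En × Bool, d ∈ T ∧ get t.VLAB (t.enc d) = v
    have hP : ∀ d : Fin t.En × Bool, P (get t.VLAB (t.enc d)) ↔ d ∈ T := by
      intro d
      constructor
      · rintro ⟨d', h3, h4⟩
        exact hcyc _ _ h4 h3
      · intro h3
        exact ⟨d, h3, rfl⟩
    have hedge : ∀ e ∈ LE, (P (get t.VLAB (2 * e)) ↔ P (get t.VLAB (2 * e + 1))) := by
      intro e he
      have e1 : t.enc ((⟨e, l2 e he⟩ : Fin t.En), false) = 2 * e := rfl
      have e2 : t.enc ((⟨e, l2 e he⟩ : Fin t.En), true) = 2 * e + 1 := rfl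
      have e3 := hP ((⟨e, l2 e he⟩ : Fin t.En), false)
      have e4 := hP ((⟨e, l2 e he⟩ : Fin t.En), true)
      rw [e1] at e3
      rw [e2] at e4
      rw [e3, e4]
      constructor
      · intro h3
        refine hrev _ h3 ?_
        change t.enc ((⟨e, l2 e he⟩ : Fin t.En), false) / 2 ∈ LE
        rw [e1, Nat.mul_div_cancel_left e (by norm_num)]
        exact he
      · intro h3
        refine hrev _ h3 ?_
        change t.enc ((⟨e, l2 e he⟩ : Fin t.En), true) / 2 ∈ LE
        rw [e2]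
        have : (2 * e + 1) / 2 = e := by omega
        rw [this]
        exact he
    have hconn : ∀ (l : List ℕ) (dn : List ℕ), connB t LE dn l = true →
        (∀ a ∈ dn, ∀ b ∈ dn, (P a ↔ P b)) →
        (∀ a b, (a ∈ dn ∨ a ∈ l) → (b ∈ dn ∨ b ∈ l) → (P a ↔ P b)) := by
      intro l
      induction l with
      | nil =>
        intro dn _ h3 a b ha hb
        have ha' : a ∈ dn := by simpa using ha
        have hb' : b ∈ dn := by simpa using hb
        exact h3 a ha' b hb'
      | cons v l ih =>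
        intro dn h4 h3 a b ha hb
        unfold connB at h4
        obtain ⟨h5, h6⟩ := Tab.bnd_spec h4
        obtain ⟨e, he, h7⟩ := List.any_eq_true.1 h5
        have h8 : ∃ u ∈ dn, (P u ↔ P v) := by
          rcases beq_cases (get t.VLAB (2 * e)) v with ⟨c1, c2⟩ | ⟨c1, _⟩
          · rw [c1, cond_true] at h7
            exact ⟨_, memB_iff.1 h7, by rw [← c2]; exact (hedge e he).symm⟩
          · rw [c1, cond_false] at h7
            rcases beq_cases (get t.VLAB (2 * e + 1)) v with ⟨c1, c2⟩ | ⟨c1, _⟩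
            · rw [c1, cond_true] at h7
              exact ⟨_, memB_iff.1 h7, by rw [← c2]; exact (hedge e he)⟩
            · rw [c1, cond_false] at h7
              exact absurd h7 (by decide)
        obtain ⟨u, hu, huv⟩ := h8
        refine ih (v :: dn) h6 ?_ a b ?_ ?_
        · intro a ha b hb
          rw [List.mem_cons] at ha hb
          have k1 : ∀ x, x = v ∨ x ∈ dn → (P x ↔ P u) := by
            intro x hx
            rcases hx with rfl | hx
            · exact huv.symm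
            · exact h3 x hx u hu
          exact (k1 a ha).trans (k1 b hb).symm
        · rw [List.mem_cons]
          rw [List.mem_cons] at ha
          tauto
        · rw [List.mem_cons]
          rw [List.mem_cons] at hb
          tauto
    have hall : ∀ a ∈ LV, ∀ b ∈ LV, (P a ↔ P b) := by
      intro a ha b hb
      rw [hl, List.mem_cons] at ha hb
      refine hconn l [v0] hc ?_ a b ?_ ?_
      · intro a ha b hb
        rw [List.mem_singleton] at ha hb
        rw [ha, hb]
      · rw [List.mem_singleton]; exact ha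
      · rw [List.mem_singleton]; exact hb
    obtain ⟨dT, hdT⟩ := hne
    apply Set.Subset.antisymm hT
    intro d hd
    have m1 : get t.VLAB (t.enc dT) ∈ LV := hT hdT
    have m2 : get t.VLAB (t.enc d) ∈ LV := hd
    exact (hP d).1 ((hall _ m1 _ m2).1 ((hP dT).2 hdT))
  · -- proper
    intro huniv
    have hsub : Finset.range t.Fn ⊆ LF.toFinset := by
      intro f hf
      rw [Finset.mem_range] at hf
      obtain ⟨d, hd0⟩ := enc_dec' h (hv8 f hf).1
      have h3 : d ∈ (subOf h LV LE LF h1 h2).fs := by rw [huniv]; exact Set.mem_univ _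
      have h4 : get t.FACE (t.enc d) ∈ LF := h3
      rw [hd0, (hv8 f hf).2] at h4
      exact List.mem_toFinset.2 h4
    have h3 := Finset.card_le_card hsub
    rw [Finset.card_range] at h3
    have h4 := List.toFinset_card_le LF
    omega
  · -- Euler characteristic
    have c1 : numOrbitsIn (rotP h) {d : Fin t.En × Bool | get t.VLAB (t.enc d) ∈ LV} =
        LV.length := by
      refine count_in (rotP h) (fun d => get t.VLAB (t.enc d)) hex LV n1 ?_
      intro x hx
      obtain ⟨d, hd0⟩ := enc_dec' h (hv7 x (l1 x hx)).1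
      exact ⟨d, by rw [hd0]; exact (hv7 x (l1 x hx)).2⟩
    have c2 : numOrbitsIn (flip : Perm (Fin t.En × Bool)) {d : Fin t.En × Bool | t.enc d / 2 ∈ LE} =
        LE.length := by
      refine count_in flip (fun d : Fin t.En × Bool => t.enc d / 2) flip_exact LE n2 ?_
      intro x hx
      refine ⟨((⟨x, l2 x hx⟩ : Fin t.En), false), ?_⟩
      change (2 * x + 0) / 2 = x
      omega
    have c3 : numOrbitsIn (rotP h * flip) {d : Fin t.En × Bool | get t.FACE (t.enc d) ∈ LF} =
        LF.length := by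
      refine count_in (rotP h * flip) (fun d => get t.FACE (t.enc d)) (face_exact h IDX hF) LF n3 ?_
      intro x hx
      obtain ⟨d, hd0⟩ := enc_dec' h (hv8 x (l3 x hx)).1
      exact ⟨d, by rw [hd0]; exact (hv8 x (l3 x hx)).2⟩
    have key : (numOrbitsIn (rotP h) {d : Fin t.En × Bool | get t.VLAB (t.enc d) ∈ LV} : ℤ) -
      (numOrbitsIn (flip : Perm (Fin t.En × Bool)) {d : Fin t.En × Bool | t.enc d / 2 ∈ LE} : ℤ) +
      (numOrbitsIn (rotP h * flip) {d : Fin t.En × Bool | get t.FACE (t.enc d) ∈ LF} : ℤ) = 1 := by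
      rw [c1, c2, c3]
      omega
    exact key

theorem exact_euler (IDX : ℕ) (hV : allB (2 * t.En) (chkV t) = true)
    (hR : allB (2 * t.En) (chkR t) = true) (hF : allB (2 * t.En) (chkF t IDX) = true) :
    (tabDrawing h).toSurfaceMap.euler = (t.Vn : ℤ) - (t.En : ℤ) + (t.Fn : ℤ) := by
  have hv7 : ∀ v < t.Vn, get t.VREP v < 2 * t.En ∧ get t.VLAB (get t.VREP v) = v := by
    intro v hv
    obtain ⟨b1, b2⟩ := Tab.bnd_spec (allB_spec h.c7 v hv)
    exact ⟨GoodTab.blt_eq b1, GoodTab.beq_eq b2⟩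
  have hv8 : ∀ v < t.Fn, get t.FREP v < 2 * t.En ∧ get t.FACE (get t.FREP v) = v := by
    intro v hv
    obtain ⟨b1, b2⟩ := Tab.bnd_spec (allB_spec h.c8 v hv)
    exact ⟨GoodTab.blt_eq b1, GoodTab.beq_eq b2⟩
  have hex := rot_exact h hV hR (fun v hv => (hv7 v hv).1)
  have c1 : numOrbits (rotP h) = t.Vn := by
    refine count_all (rotP h) (fun d => get t.VLAB (t.enc d)) hex t.Vn ?_ ?_
    · intro d
      exact GoodTab.blt_eq (Tab.bnd_spec (allB_spec hR _ (t.enc_lt d))).1
    · intro x hx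
      obtain ⟨d, hd0⟩ := enc_dec' h (hv7 x hx).1
      exact ⟨d, by rw [hd0]; exact (hv7 x hx).2⟩
  have c2 : numOrbits (flip : Perm (Fin t.En × Bool)) = t.En := by
    refine count_all flip (fun d : Fin t.En × Bool => t.enc d / 2) flip_exact t.En ?_ ?_
    · intro d
      have := t.enc_lt d
      omega
    · intro x hx
      refine ⟨((⟨x, hx⟩ : Fin t.En), false), ?_⟩
      change (2 * x + 0) / 2 = x
      omega
  have c3 : numOrbits (rotP h * flip) = t.Fn := by
    refine count_all (rotP h * flip) (fun d => get t.FACE (t.enc d)) (face_exact h IDX hF) t.Fn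
      ?_ ?_
    · intro d
      exact GoodTab.blt_eq (Tab.bnd_spec (allB_spec hR _ (t.enc_lt d))).2
    · intro x hx
      obtain ⟨d, hd0⟩ := enc_dec' h (hv8 x hx).1
      exact ⟨d, by rw [hd0]; exact (hv8 x hx).2⟩
  have key : (numOrbits (rotP h) : ℤ) - (numOrbits (flip : Perm (Fin t.En × Bool)) : ℤ) +
      (numOrbits (rotP h * flip) : ℤ) = (t.Vn : ℤ) - (t.En : ℤ) + (t.Fn : ℤ) := by
    rw [c1, c2, c3]
  exact key

/-- check of a pair of darts leaving a vertex -/
def pairB (t : Tab) (cert : ℕ → ℕ → List ℕ × List ℕ × List ℕ) (x y : ℕ) : Bool :=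
  Tab.bnd (discB t (cert x y).1 (cert x y).2.1 (cert x y).2.2)
    (Tab.bnd ((trail t (get t.LAB x)).all fun c => memB (c / 2) (cert x y).2.1)
      ((trail t (get t.LAB y)).all fun c => memB (c / 2) (cert x y).2.1))

def pairsB (t : Tab) (cert : ℕ → ℕ → List ℕ × List ℕ × List ℕ) (v : ℕ) : Bool :=
  cond (Nat.beq (get t.POS (get t.VREP v)) 0)
    (allB 4 fun i => allB 4 fun j =>
      cond (Nat.beq (get t.LAB ((get t.ROT)^[i] (get t.VREP v)))
          (get t.LAB ((get t.ROT)^[j] (get t.VREP v)))) true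
        (pairB t cert ((get t.ROT)^[i] (get t.VREP v)) ((get t.ROT)^[j] (get t.VREP v)))) true

theorem pow_enc (n : ℕ) (d : Fin t.En × Bool) :
    t.enc (((rotP h) ^ n) d) = (get t.ROT)^[n] (t.enc d) := by
  induction n with
  | zero => rfl
  | succ n ih => rw [pow_succ', Perm.mul_apply, enc_rotP, ih, Function.iterate_succ_apply']

theorem adj_in_disc (IDX : ℕ) (hV : allB (2 * t.En) (chkV t) = true)
    (hR : allB (2 * t.En) (chkR t) = true) (hF : allB (2 * t.En) (chkF t IDX) = true)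
    (hT : allB (2 * t.En) (chkT t) = true)
    (cert : ℕ → ℕ → List ℕ × List ℕ × List ℕ) (hP : allB t.Vn (pairsB t cert) = true) :
    AdjInDisc (tabDrawing h) := by
  have hv7 : ∀ v < t.Vn, get t.VREP v < 2 * t.En ∧ get t.VLAB (get t.VREP v) = v := by
    intro v hv
    obtain ⟨b1, b2⟩ := Tab.bnd_spec (allB_spec h.c7 v hv)
    exact ⟨GoodTab.blt_eq b1, GoodTab.beq_eq b2⟩
  have hex := rot_exact h hV hR (fun v hv => (hv7 v hv).1)
  intro u v v' hv hv' hne
  obtain ⟨x, ⟨hx1, hx2, hx3⟩, _⟩ := (tabDrawing h).start u v hv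
  obtain ⟨y, ⟨hy1, hy2, hy3⟩, _⟩ := (tabDrawing h).start u v' hv'
  have hcyc := (tabDrawing h).vertex_cyclic x y hx3 hy3 (hx1.trans hy1.symm)
  change Fin t.En × Bool at x y
  have hlab : get t.VLAB (t.enc x) = get t.VLAB (t.enc y) := (hex x y).1 hcyc
  obtain ⟨d0, r1, i, hi, r2⟩ := rot_same h x hV (fun v hv => (hv7 v hv).1) hR
  obtain ⟨d0', r1', j, hj, r2'⟩ := rot_same h y hV (fun v hv => (hv7 v hv).1) hR
  have hdd : d0 = d0' := enc_inj h.pos (by rw [r1, r1', hlab])
  subst hdd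
  have hvlt : get t.VLAB (t.enc x) < t.Vn :=
    GoodTab.blt_eq (Tab.bnd_spec (allB_spec hR _ (t.enc_lt x))).1
  have hpx : t.enc x = (get t.ROT)^[i] (get t.VREP (get t.VLAB (t.enc x))) := by
    conv_lhs => rw [← r2]
    rw [pow_enc, r1]
  have hpy : t.enc y = (get t.ROT)^[j] (get t.VREP (get t.VLAB (t.enc x))) := by
    conv_lhs => rw [← r2']
    rw [pow_enc, r1]
  -- the vertex is not a crossing
  have hpos0 : get t.POS (get t.VREP (get t.VLAB (t.enc x))) = 0 := by
    rw [← r1]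
    by_contra hne0
    have hp : ∀ n : ℕ, 0 < get t.POS (t.enc (((rotP h) ^ n) d0)) := by
      intro n
      induction n with
      | zero => exact Nat.pos_of_ne_zero hne0
      | succ n ih =>
        rw [pow_succ', Perm.mul_apply, enc_rotP]
        exact (h.s4b (t.enc_lt _) ih).1
    have := hp i
    rw [r2] at this
    have hx3' : get t.POS (t.enc x) = 0 := hx3
    omega
  have hx : (labP x : Ed N M × Bool) ≠ labP y := by
    intro he
    apply hne
    have e1 : tail w (flip (labP x : Ed N M × Bool)) = v := hx2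
    have e2 : tail w (flip (labP y : Ed N M × Bool)) = v' := hy2
    rw [← e1, ← e2, he]
  have hxl : get t.LAB (t.enc x) ≠ get t.LAB (t.enc y) := by
    intro he
    apply hx
    apply encL_inj
    rw [encL_labP h, encL_labP h, he]
  have hc := allB_spec hP _ hvlt
  unfold pairsB at hc
  rw [hpos0] at hc
  have hz : Nat.beq 0 0 = true := rfl
  rw [hz, cond_true] at hc
  have hc1 := allB_spec (allB_spec hc i hi) j hj
  rw [← hpx, ← hpy] at hc1
  rcases beq_cases (get t.LAB (t.enc x)) (get t.LAB (t.enc y)) with ⟨_, c2⟩ | ⟨c1, _⟩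
  · exact absurd c2 hxl
  rw [c1, cond_false] at hc1
  unfold pairB at hc1
  obtain ⟨p1, hc1⟩ := Tab.bnd_spec hc1
  obtain ⟨p2, p3⟩ := Tab.bnd_spec hc1
  have sp := discB_spec p1
  refine ⟨subOf h _ _ _ sp.2.2.2.2.2.2.1 sp.2.2.2.2.2.2.2.1,
    subOf_isDisc h IDX hV hR hF _ _ _ p1 _ _, ?_⟩
  intro d hd
  change Fin t.En × Bool at d
  change t.enc d / 2 ∈ (cert (t.enc x) (t.enc y)).2.1
  have htr : t.enc d ∈ trail t (get t.LAB (t.enc d)) :=
    memB_iff.1 (allB_spec hT _ (t.enc_lt d))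
  obtain ⟨q1, q2⟩ := hd
  have ends : ∀ z : Fin t.En × Bool, tail w (labP z : Ed N M × Bool) = u →
      tail w (flip (labP d : Ed N M × Bool)) = tail w (flip (labP z : Ed N M × Bool)) →
      get t.LAB (t.enc d) = get t.LAB (t.enc z) := by
    intro z hz1 hz2
    have : (labP d : Ed N M × Bool) = labP z := ends_inj w (q1.trans hz1.symm) hz2
    rw [← encL_labP h, ← encL_labP h, this]
  rcases q2 with q2 | q2
  · rw [ends x hx1 (q2.trans hx2.symm)] at htr
    exact memB_iff.1 (List.all_eq_true.1 p2 _ htr)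
  · rw [ends y hy1 (q2.trans hy2.symm)] at htr
    exact memB_iff.1 (List.all_eq_true.1 p3 _ htr)

end

end Pool.Agent.N398.HT
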