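import Pool.Agent.N398.HT.Disc

/-! # Checks for drawings given by tables -/

set_option autoImplicit false

namespace Pool.Agent.N398.HT

open Equiv TH482.HT

export TH482.HT (get flip)

/-- every dart is one of the first four darts after the representative of its vertex -/
def chkV (t : Tab) (c : ℕ) : Bool :=
  cond (Nat.beq (get t.VREP (get t.VLAB c)) c) true
    (cond (Nat.beq (get t.ROT (get t.VREP (get t.VLAB c))) c) true
      (cond (Nat.beq (get t.ROT (get t.ROT (get t.VREP (get t.VLAB c)))) c) true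
        (Nat.beq (get t.ROT (get t.ROT (get t.ROT (get t.VREP (get t.VLAB c))))) c)))

/-- labels are in range -/
def chkR (t : Tab) (c : ℕ) : Bool :=
  Tab.bnd (Nat.blt (get t.VLAB c) t.Vn) (Nat.blt (get t.FACE c) t.Fn)

/-- the position of a dart in its face -/
def chkF (t : Tab) (IDX c : ℕ) : Bool :=
  cond (Nat.beq (get IDX c) 0) (Nat.beq (get t.FREP (get t.FACE c)) c)
    (Tab.bnd (Nat.blt (Tab.oth (get t.ROTI c)) (2 * t.En))
      (Tab.bnd (Nat.beq (get t.FACE (Tab.oth (get t.ROTI c))) (get t.FACE c))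
        (Nat.beq (get IDX (Tab.oth (get t.ROTI c)) + 1) (get IDX c))))

/-- the pieces of an edge -/
def trailAux (t : Tab) : ℕ → ℕ → List ℕ
  | 0, _ => []
  | n + 1, x => x :: cond (Nat.beq (get t.POS (Tab.oth x)) 0) []
      (trailAux t n (get t.ROT (get t.ROT (Tab.oth x))))

def trail (t : Tab) (l : ℕ) : List ℕ := trailAux t 20 (get t.START l)

def memB (x : ℕ) (l : List ℕ) : Bool := l.any (Nat.beq x)

def chkT (t : Tab) (c : ℕ) : Bool := memB c (trail t (get t.LAB c))

def nodupB : List ℕ → Bool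
  | [] => true
  | x :: l => cond (memB x l) false (nodupB l)

def connB (t : Tab) (LE : List ℕ) : List ℕ → List ℕ → Bool
  | _, [] => true
  | done, v :: l => Tab.bnd (LE.any fun e =>
      cond (Nat.beq (get t.VLAB (2 * e)) v) (memB (get t.VLAB (2 * e + 1)) done)
        (cond (Nat.beq (get t.VLAB (2 * e + 1)) v) (memB (get t.VLAB (2 * e)) done) false))
      (connB t LE (v :: done) l)

def discB (t : Tab) (LV LE LF : List ℕ) : Bool :=
  Tab.bnd (nodupB LV) (Tab.bnd (nodupB LE) (Tab.bnd (nodupB LF)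
    (Tab.bnd (LV.all fun v => Nat.blt v t.Vn) (Tab.bnd (LE.all fun e => Nat.blt e t.En)
      (Tab.bnd (LF.all fun f => Nat.blt f t.Fn)
        (Tab.bnd (LE.all fun e => Tab.bnd (memB (get t.VLAB (2 * e)) LV)
            (memB (get t.VLAB (2 * e + 1)) LV))
          (Tab.bnd (cond LF.isEmpty true
              (allB (2 * t.En) fun c => cond (memB (get t.FACE c) LF) (memB (c / 2) LE) true))
            (Tab.bnd (Nat.beq (LV.length + LF.length) (LE.length + 1))
              (Tab.bnd (Nat.blt LF.length t.Fn)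
                (match LV with
                  | [] => false
                  | v :: l => connB t LE [v] l))))))))))

theorem memB_iff {x : ℕ} {l : List ℕ} : memB x l = true ↔ x ∈ l := by
  unfold memB
  rw [List.any_eq_true]
  constructor
  · rintro ⟨y, hy, h⟩
    rw [Nat.eq_of_beq_eq_true h]; exact hy
  · intro h
    exact ⟨x, h, Nat.beq_refl x⟩

theorem nodupB_spec {l : List ℕ} (h : nodupB l = true) : l.Nodup := by
  induction l with
  | nil => exact List.nodup_nil
  | cons x l ih =>
    unfold nodupB at h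
    cases hx : memB x l
    · rw [hx, cond_false] at h
      rw [List.nodup_cons]
      refine ⟨fun hm => ?_, ih h⟩
      rw [memB_iff.2 hm] at hx
      exact absurd hx (by decide)
    · rw [hx, cond_true] at h
      exact absurd h (by decide)

theorem beq_cases (a b : ℕ) : (Nat.beq a b = true ∧ a = b) ∨ (Nat.beq a b = false ∧ a ≠ b) := by
  cases h : Nat.beq a b
  · exact Or.inr ⟨rfl, Nat.ne_of_beq_eq_false h⟩
  · exact Or.inl ⟨rfl, Nat.eq_of_beq_eq_true h⟩

section

variable {N M k : ℕ} [NeZero N] {w : Fin (N + 1) → Fin k} {t : Tab} (h : GoodTab N M k w t)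

theorem enc_dec' (h : GoodTab N M k w t) {c : ℕ} (hc : c < 2 * t.En) :
    ∃ d : Fin t.En × Bool, t.enc d = c := by
  have := h.ne
  exact ⟨t.dec c, t.enc_dec hc⟩

theorem rot_same (d : Fin t.En × Bool) (hV : allB (2 * t.En) (chkV t) = true)
    (h7 : ∀ v < t.Vn, get t.VREP v < 2 * t.En)
    (hR : allB (2 * t.En) (chkR t) = true) :
    ∃ d0 : Fin t.En × Bool, t.enc d0 = get t.VREP (get t.VLAB (t.enc d)) ∧
      ∃ n : ℕ, n < 4 ∧ ((rotP h) ^ n) d0 = d := by
  have hlt := (GoodTab.blt_eq (Tab.bnd_spec (allB_spec hR _ (t.enc_lt d))).1)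
  obtain ⟨d0, hd0⟩ := enc_dec' h (h7 _ hlt)
  refine ⟨d0, hd0, ?_⟩
  have hc := allB_spec hV _ (t.enc_lt d)
  unfold chkV at hc
  rw [← hd0] at hc
  have hpos := h.pos
  rcases beq_cases (t.enc d0) (t.enc d) with ⟨e1, e2⟩ | ⟨e1, _⟩
  · exact ⟨0, by norm_num, enc_inj hpos e2⟩
  rw [e1, cond_false, ← enc_rotP h] at hc
  rcases beq_cases (t.enc (rotP h d0)) (t.enc d) with ⟨e1, e2⟩ | ⟨e1, _⟩
  · exact ⟨1, by norm_num, enc_inj hpos (by rw [pow_one]; exact e2)⟩
  rw [e1, cond_false, ← enc_rotP h] at hc
  rcases beq_cases (t.enc (rotP h (rotP h d0))) (t.enc d) with ⟨e1, e2⟩ | ⟨e1, _⟩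
  · exact ⟨2, by norm_num, enc_inj hpos (by
      rw [pow_two, Perm.mul_apply]; exact e2)⟩
  rw [e1, cond_false, ← enc_rotP h] at hc
  refine ⟨3, by norm_num, enc_inj hpos ?_⟩
  rw [pow_succ, pow_two, Perm.mul_apply, Perm.mul_apply]
  exact Nat.eq_of_beq_eq_true hc

/-- the cycles of the rotation are given by the labels -/
theorem rot_exact (hV : allB (2 * t.En) (chkV t) = true) (hR : allB (2 * t.En) (chkR t) = true)
    (h7 : ∀ v < t.Vn, get t.VREP v < 2 * t.En) (d d' : Fin t.En × Bool) :
    (rotP h).SameCycle d d' ↔ get t.VLAB (t.enc d) = get t.VLAB (t.enc d') := by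
  constructor
  · rintro ⟨n, rfl⟩
    have key : ∀ (n : ℤ) (d : Fin t.En × Bool),
        get t.VLAB (t.enc (((rotP h) ^ n) d)) = get t.VLAB (t.enc d) := by
      intro n
      induction n using Int.induction_on with
      | zero => intro d; simp
      | succ n ih =>
        intro d
        rw [zpow_add, zpow_one, Perm.mul_apply, ih, enc_rotP, (h.s6 (t.enc_lt d)).1]
      | pred n ih =>
        intro d
        rw [zpow_sub, zpow_one, Perm.mul_apply, ih]
        have e1 : rotP h ((rotP h)⁻¹ d) = d := (rotP h).apply_symm_apply d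
        have e2 := (h.s6 (t.enc_lt ((rotP h)⁻¹ d))).1
        rw [← enc_rotP h, e1] at e2
        exact e2.symm
    exact (key n d).symm
  · intro he
    obtain ⟨d0, h1, n, _, h2⟩ := rot_same h d hV h7 hR
    obtain ⟨d0', h1', n', _, h2'⟩ := rot_same h d' hV h7 hR
    have : d0 = d0' := enc_inj h.pos (by rw [h1, h1', he])
    subst this
    have a1 : (rotP h).SameCycle d0 d := ⟨n, by rw [zpow_natCast]; exact h2⟩
    have a2 : (rotP h).SameCycle d0 d' := ⟨n', by rw [zpow_natCast]; exact h2'⟩
    exact a1.symm.trans a2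

/-- the cycles of `flip` are the edges -/
theorem flip_exact (d d' : Fin t.En × Bool) :
    (flip : Perm (Fin t.En × Bool)).SameCycle d d' ↔ t.enc d / 2 = t.enc d' / 2 := by
  have e : ∀ d : Fin t.En × Bool, t.enc d / 2 = d.1.val := by
    rintro ⟨e, b⟩
    cases b <;> simp only [Tab.enc, cond_true, cond_false] <;> omega
  rw [e, e]
  constructor
  · rintro ⟨n, rfl⟩
    have key : ∀ (n : ℤ) (d : Fin t.En × Bool),
        (((flip : Perm (Fin t.En × Bool)) ^ n) d).1 = d.1 := by
      intro n
      induction n using Int.induction_on with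
      | zero => intro d; simp
      | succ n ih =>
        intro d
        rw [zpow_add, zpow_one, Perm.mul_apply, ih]
        rfl
      | pred n ih =>
        intro d
        rw [zpow_sub, zpow_one, Perm.mul_apply, ih]
        rfl
    rw [key]
  · intro he
    have he' : d.1 = d'.1 := Fin.ext he
    obtain ⟨a, b⟩ := d
    obtain ⟨a', b'⟩ := d'
    have he2 : a = a' := he'
    subst he2
    by_cases hb : b = b'
    · subst hb
      exact Perm.SameCycle.refl _ _
    · refine ⟨1, ?_⟩
      rw [zpow_one, flip_apply]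
      congr 1
      cases b <;> cases b' <;> simp_all

theorem face_rep (IDX : ℕ) (hF : allB (2 * t.En) (chkF t IDX) = true) :
    ∀ (n : ℕ) (d : Fin t.En × Bool), get IDX (t.enc d) = n → ∃ d0 : Fin t.En × Bool,
      t.enc d0 = get t.FREP (get t.FACE (t.enc d)) ∧ (rotP h * flip).SameCycle d0 d := by
  intro n
  induction n with
  | zero =>
    intro d hd
    have hc := allB_spec hF _ (t.enc_lt d)
    unfold chkF at hc
    rw [hd] at hc
    have hc' : Nat.beq (get t.FREP (get t.FACE (t.enc d))) (t.enc d) = true := hc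
    exact ⟨d, (Nat.eq_of_beq_eq_true hc').symm, Perm.SameCycle.refl _ _⟩
  | succ n ih =>
    intro d hd
    have hc := allB_spec hF _ (t.enc_lt d)
    unfold chkF at hc
    rw [hd] at hc
    have hz : Nat.beq (n + 1) 0 = false := rfl
    rw [hz, cond_false] at hc
    obtain ⟨a1, hc⟩ := Tab.bnd_spec hc
    obtain ⟨a2, a3⟩ := Tab.bnd_spec hc
    -- the previous dart of the face
    have hprev : t.enc (flip ((rotP h)⁻¹ d)) = Tab.oth (get t.ROTI (t.enc d)) := by
      rw [t.enc_flip, enc_rotP_inv]
    rw [← hprev] at a1 a2 a3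
    have a2' := Nat.eq_of_beq_eq_true a2
    have a3' := Nat.eq_of_beq_eq_true a3
    obtain ⟨d0, h1, h2⟩ := ih (flip ((rotP h)⁻¹ d)) (by omega)
    refine ⟨d0, by rw [h1, a2'], h2.trans ?_⟩
    refine ⟨1, ?_⟩
    rw [zpow_one, Perm.mul_apply]
    have : flip (flip ((rotP h)⁻¹ d)) = (rotP h)⁻¹ d := by simp
    rw [this]
    exact (rotP h).apply_symm_apply d

theorem face_exact (IDX : ℕ) (hF : allB (2 * t.En) (chkF t IDX) = true)
    (d d' : Fin t.En × Bool) :
    (rotP h * flip).SameCycle d d' ↔ get t.FACE (t.enc d) = get t.FACE (t.enc d') := by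
  constructor
  · rintro ⟨n, rfl⟩
    have step : ∀ d : Fin t.En × Bool,
        get t.FACE (t.enc ((rotP h * flip : Perm (Fin t.En × Bool)) d)) = get t.FACE (t.enc d) := by
      intro d
      rw [Perm.mul_apply, enc_rotP, t.enc_flip, (h.s6 (t.enc_lt d)).2]
    have key : ∀ (n : ℤ) (d : Fin t.En × Bool),
        get t.FACE (t.enc (((rotP h * flip : Perm (Fin t.En × Bool)) ^ n) d)) = get t.FACE (t.enc d) := by
      intro n
      induction n using Int.induction_on with
      | zero => intro d; simp
      | succ n ih =>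
        intro d
        rw [zpow_add, zpow_one, Perm.mul_apply, ih, step]
      | pred n ih =>
        intro d
        rw [zpow_sub, zpow_one, Perm.mul_apply, ih]
        have e1 : (rotP h * flip : Perm (Fin t.En × Bool)) ((rotP h * flip :
            Perm (Fin t.En × Bool))⁻¹ d) = d :=
          (rotP h * flip : Perm (Fin t.En × Bool)).apply_symm_apply d
        have e2 := step ((rotP h * flip : Perm (Fin t.En × Bool))⁻¹ d)
        rw [e1] at e2
        exact e2.symm
    exact (key n d).symm
  · intro he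
    obtain ⟨d0, h1, h2⟩ := face_rep h IDX hF _ d rfl
    obtain ⟨d0', h1', h2'⟩ := face_rep h IDX hF _ d' rfl
    have : d0 = d0' := enc_inj h.pos (by rw [h1, h1', he])
    subst this
    exact h2.symm.trans h2'

end

end Pool.Agent.N398.HT
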