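import Pool.Agent.TH482.HT.Pos4

/-!
# Edges of a drawing contained in a closed disc

For the definitions of a map on an oriented surface and of a drawing see
`Pool/Agent/TH482/HT/Defs.lean`.
-/

set_option autoImplicit false

namespace Pool.Agent.N398.HT

open Equiv TH482.HT

/-- A closed subcomplex of the map `M`: a set of vertices, edges and faces of `M` such that with
every edge it contains the end vertices, and with every face it contains the boundary edges.
A vertex, edge or face is a cycle of `rot`, `rev`, `rot * rev`; the three sets of cells are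
recorded by the sets `vs`, `es`, `fs` of the darts that lie in these cycles. -/
structure Subcomplex (M : SurfaceMap) where
  /-- the darts starting at a vertex of the subcomplex -/
  vs : Set M.D
  /-- the darts of the edges of the subcomplex -/
  es : Set M.D
  /-- the darts of the faces of the subcomplex -/
  fs : Set M.D
  vs_rot : ∀ d ∈ vs, M.rot d ∈ vs
  es_rev : ∀ d ∈ es, M.rev d ∈ es
  fs_face : ∀ d ∈ fs, (M.rot * M.rev) d ∈ fs
  es_vs : ∀ d ∈ es, d ∈ vs
  fs_es : ∀ d ∈ fs, d ∈ es

/-- The number of cycles of `σ` that contain an element of `s`. -/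
noncomputable def numOrbitsIn {D : Type} (σ : Perm D) (s : Set D) : ℕ :=
  ((Quotient.mk (Perm.SameCycle.setoid σ)) '' s).ncard

variable {M : SurfaceMap}

/-- The Euler characteristic (vertices - edges + faces) of a subcomplex. -/
noncomputable def Subcomplex.euler (Y : Subcomplex M) : ℤ :=
  (numOrbitsIn M.rot Y.vs : ℤ) - (numOrbitsIn M.rev Y.es : ℤ) +
    (numOrbitsIn (M.rot * M.rev) Y.fs : ℤ)

/-- The subcomplex is connected: it is not empty, and it has no proper nonempty set of vertices
that is closed under going along edges of the subcomplex. -/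
def Subcomplex.Connected (Y : Subcomplex M) : Prop :=
  Y.vs.Nonempty ∧ ∀ T ⊆ Y.vs, T.Nonempty → (∀ d ∈ T, M.rot d ∈ T) →
    (∀ d ∈ T, d ∈ Y.es → M.rev d ∈ T) → T = Y.vs

/-- The subcomplex is connected, is not the whole surface and has Euler characteristic `1`.
This says that a regular neighbourhood of the subcomplex is a closed disc: such a neighbourhood is
a compact connected surface with nonempty boundary and Euler characteristic `1`.
Conversely, if a union `X` of finitely many edges of the map is connected and contained in a
closed disc, then the union of `X` and of all components of the complement of `X` except the one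
that contains the complement of the disc is such a subcomplex. -/
def Subcomplex.IsDisc (Y : Subcomplex M) : Prop :=
  Y.Connected ∧ Y.fs ≠ Set.univ ∧ Y.euler = 1

/-- For every two adjacent edges `uv` and `uv'` of `G` there is a closed disc in the surface that
contains the arcs of both. -/
def AdjInDisc {V : Type} {G : SimpleGraph V} (𝒟 : Drawing G) : Prop :=
  ∀ u v v', G.Adj u v → G.Adj u v' → v ≠ v' →
    ∃ Y : Subcomplex 𝒟.toSurfaceMap, Y.IsDisc ∧
      ∀ d, (𝒟.src d = u ∧ (𝒟.tgt d = v ∨ 𝒟.tgt d = v')) → d ∈ Y.es

section count

variable {D : Type} (σ : Perm D) (L : D → ℕ)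

theorem count_in (hL : ∀ d d', σ.SameCycle d d' ↔ L d = L d') (l : List ℕ) (hn : l.Nodup)
    (hs : ∀ x ∈ l, ∃ d, L d = x) : numOrbitsIn σ {d | L d ∈ l} = l.length := by
  classical
  let Φ : Quotient (Perm.SameCycle.setoid σ) → ℕ := Quotient.lift L (fun a b hab => (hL a b).1 hab)
  have hinj : Function.Injective Φ := by
    intro a b hab
    induction a using Quotient.ind
    induction b using Quotient.ind
    exact Quotient.sound ((hL _ _).2 hab)
  have himg : Φ '' ((Quotient.mk (Perm.SameCycle.setoid σ)) '' {d | L d ∈ l}) =
      (l.toFinset : Set ℕ) := by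
    ext x
    simp only [Set.mem_image, List.coe_toFinset]
    constructor
    · rintro ⟨_, ⟨d, hd, rfl⟩, rfl⟩
      exact hd
    · intro hx
      obtain ⟨d, hd⟩ := hs x hx
      exact ⟨_, ⟨d, by rw [← hd] at hx; exact hx, rfl⟩, hd⟩
  unfold numOrbitsIn
  rw [← Set.ncard_image_of_injective _ hinj, himg, Set.ncard_coe_finset,
    List.toFinset_card_of_nodup hn]

theorem count_all (hL : ∀ d d', σ.SameCycle d d' ↔ L d = L d') (n : ℕ)
    (hlt : ∀ d, L d < n) (hs : ∀ x < n, ∃ d, L d = x) : numOrbits σ = n := by
  let Φ : Quotient (Perm.SameCycle.setoid σ) → Fin n :=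
    Quotient.lift (fun d => (⟨L d, hlt d⟩ : Fin n))
      (fun a b hab => Fin.ext ((hL a b).1 hab))
  have hbij : Function.Bijective Φ := by
    constructor
    · intro a b hab
      induction a using Quotient.ind
      induction b using Quotient.ind
      exact Quotient.sound ((hL _ _).2 (congrArg Fin.val hab))
    · intro x
      obtain ⟨d, hd⟩ := hs x.val x.2
      exact ⟨Quotient.mk _ d, Fin.ext hd⟩
  unfold numOrbits
  rw [Nat.card_congr (Equiv.ofBijective Φ hbij)]
  simp

end count

end Pool.Agent.N398.HT
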